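import Pool.Agent.Lib.MP_124863_gt.OkMan

namespace Pool.Agent.Results.MP_124863_gt.Elliptic

open Pool.Agent.Lib.MP_124863_gt

/-- A complete Kaehler manifold of dimension `n` that is Stein and whose curvature form is
nonnegative on the tensors of rank at most `(n + 1) / 2` is elliptic in the sense of Gromov. For
`n = 2` the curvature hypothesis is nonnegative holomorphic bisectional curvature. -/
theorem result (n : ℕ) (M : Type) [MetricSpace M] [ChartedSpace (Cn n) M] [Riem (Cn n) M]
    [CompleteSpace M] (hK : Kaehler (Cn n) M) (hR : TensorSemipositive ((n + 1) / 2) n M)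
    (hS : Stein n M) : Elliptic n M :=
  have := hK.complex
  have := hK.dist
  Ok.main ⟨hK.smooth, hK.hermitian, hK.closed⟩ hR hS

end Pool.Agent.Results.MP_124863_gt.Elliptic
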