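import Pool.Agent.Lib.MP_124863_gt.EcMan

namespace Pool.Agent.Results.MP_124863_gt.EntireCurve

open Pool.Agent.Lib.MP_124863_gt

/-- A complete Kaehler manifold with nonnegative holomorphic bisectional curvature that is Stein has,
through every point and with every tangent vector, an entire curve of polynomial area growth. -/
theorem result (n : ℕ) (M : Type) [MetricSpace M] [ChartedSpace (Cn n) M] [Riem (Cn n) M]
    [CompleteSpace M] (hK : Kaehler (Cn n) M) (hR : NonnegativeBisec n M) (hS : Stein n M)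
    (x : M) (v : Cn n) :
    ∃ f : ℂ → M, (∀ w, HolAt ℂ (Cn n) f w) ∧ f 0 = x ∧ vel n f 0 = v ∧ ∀ r : ℝ, 0 < r →
      ∫ w in Metric.closedBall (0 : ℂ) r, scal (f w) (vel n f w) (vel n f w) ≤
        4 * 10 ^ 9 * scal x v v * (1 + r ^ 2) ^ 5 :=
  have := hK.complex
  have := hK.dist
  Ec.main ⟨hK.smooth, hK.hermitian, hK.closed⟩ hR hS x v

end Pool.Agent.Results.MP_124863_gt.EntireCurve
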