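import Pool.Agent.Lib.MP_124863_gt.NS.Main
import Pool.Agent.Lib.MP_124863_gt.EcDefs

namespace Pool.Agent.Results.MP_124863_gt.NonnegSource

open Complex Pool.Agent.Lib.MP_124863_gt

/-- Let a complete Kaehler manifold with nonnegative holomorphic bisectional curvature carry a
one-parameter group of holomorphic isometries with a fixed point `p` all of whose weights are
positive. Then it is biholomorphic to `ℂ^n` iff `p` is the only fixed point iff every bounded
entire curve is constant. -/
theorem result (n : ℕ) (M : Type) [MetricSpace M] [ChartedSpace (Cn n) M] [Riem (Cn n) M]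
    [CompleteSpace M] [ConnectedSpace M]
    (hK : Kaehler (Cn n) M) (hR : NonnegativeBisec n M) (a : ℝ → M → M) (ha : IsomFlow (Cn n) a)
    (p : M) (hp : ∀ t, a t p = p) (L : Cn n ≃L[ℂ] Cn n) (α : Fin n → ℝ) (hα : ∀ j, 0 < α j)
    (hd : ∀ (t : ℝ) (v : Cn n), df ℂ (Cn n) (a t) p (L v) = L fun j => exp (α j * t * I) * v j) :
    List.TFAE [Bihol (Cn n) M, ∀ q, (∀ t, a t q = q) → q = p,
      ∀ c : ℂ → M, (∀ w, HolAt ℂ (Cn n) c w) → Bornology.IsBounded (Set.range c) →
        ∀ w, c w = c 0] :=
  have := hK.complex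
  have := hK.real
  have := hK.dist
  NS.main ⟨hK.smooth, hK.hermitian, hK.closed⟩ hR ⟨ha.zero, ha.add, ha.smooth, ha.holo, ha.isom⟩
    hp hα hd

end Pool.Agent.Results.MP_124863_gt.NonnegSource
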